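import Pool.Agent.H547Z.BDim.Bound

/-! The maximum Boolean dimension of an antichain plus `n` points is
`n / log₂ n + O(n / (log₂ n)²)`. -/

namespace Pool.Agent.Results.MP_e52733_co.AAsymptotic

open Pool.Agent.H547Z.BDim

/-- `L 0, …, L (d-1)` (linear orders on `X`) and `τ` form a Boolean realizer of the poset `P`:
for distinct `x, y`, `x < y` in `P` iff `τ` of the comparison bits is `1`. -/
def IsBoolRealizer {X : Type} (P : PartialOrder X) (d : ℕ) (L : Fin d → LinearOrder X)
    (τ : (Fin d → Bool) → Bool) : Prop :=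
  ∀ x y : X, x ≠ y →
    (P.lt x y ↔ τ (fun i => @decide ((L i).lt x y) ((L i).toDecidableLT x y)) = true)

/-- Boolean dimension: the least `d ≥ 1` with a Boolean realizer of size `d`. -/
noncomputable def bdim {X : Type} (P : PartialOrder X) : ℕ :=
  sInf {d : ℕ | 1 ≤ d ∧ ∃ (L : Fin d → LinearOrder X) (τ : (Fin d → Bool) → Bool),
    IsBoolRealizer P d L τ}

/-- The Boolean dimensions of the finite posets that are an antichain plus `n` points. -/
def dims (n : ℕ) : Set ℕ :=
  {m : ℕ | ∃ (X : Type) (_ : Finite X) (P : PartialOrder X) (B : Finset X),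
    B.card = n ∧ IsAntichain P.le ((B : Set X)ᶜ) ∧ bdim P = m}

lemma realizer_of_keys {X : Type} (P : PartialOrder X) {ι : Type} [Fintype ι]
    (r : ι → X → ℤ ×ₗ ℤ) (hr : ∀ i, Function.Injective (r i))
    (hdet : ∀ x y x' y', x ≠ y → x' ≠ y' → (∀ i, r i x < r i y ↔ r i x' < r i y') →
      P.lt x y → P.lt x' y') :
    ∃ L τ, IsBoolRealizer P (Fintype.card ι) L τ := by
  classical
  let e := (Fintype.equivFin ι).symm
  refine ⟨fun j => LinearOrder.lift' (r (e j)) (hr _), fun q => decide (∃ x y, x ≠ y ∧ P.lt x y ∧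
    ∀ j, (q j = true ↔ r (e j) x < r (e j) y)), fun x y hxy => ?_⟩
  rw [decide_eq_true_iff]
  constructor
  · intro h
    exact ⟨x, y, hxy, h, fun j => by rw [decide_eq_true_iff]; rfl⟩
  · rintro ⟨x', y', hxy', h, hq⟩
    refine hdet x' y' x y hxy' hxy (fun i => ?_) h
    have := hq (e.symm i)
    rw [decide_eq_true_iff] at this
    simp only [Equiv.apply_symm_apply] at this
    rw [← this]
    change _ ↔ r i x < r i y
    change r (e (e.symm i)) x < r (e (e.symm i)) y ↔ _
    simp only [Equiv.apply_symm_apply]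

/-- three keys which reveal a bit of both points -/
def bitKey (c : Fin 3) (b : Bool) (z : ℤ) : ℤ ×ₗ ℤ :=
  toLex (if b then 1 else 0, if c = 0 then z else if c = 1 then -z else if b then -z else z)

lemma bitKey_inj (c : Fin 3) (b b' : Bool) (z z' : ℤ) (h : bitKey c b z = bitKey c b' z') :
    z = z' := by
  have := toLex.injective h
  fin_cases c <;> cases b <;> cases b' <;> simp at this <;> omega

lemma bitKey_det (a b a' b' : Bool) (x y x' y' : ℤ) (h : x ≠ y) (h' : x' ≠ y')
    (hk : ∀ c, bitKey c a x < bitKey c b y ↔ bitKey c a' x' < bitKey c b' y') :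
    a = a' ∧ b = b' := by
  have h0 := hk 0
  have h1 := hk 1
  have h2 := hk 2
  cases a <;> cases b <;> cases a' <;> cases b' <;>
    simp [bitKey, Prod.Lex.toLex_lt_toLex] at h0 h1 h2 ⊢ <;> omega

lemma upper {X : Type} [Finite X] (P : PartialOrder X) (B : Finset X) (n D : ℕ) (hB : B.card = n)
    (hA : IsAntichain P.le ((B : Set X)ᶜ)) (hD : Cov n D) :
    ∃ L τ, IsBoolRealizer P (D + 3 * (Nat.log 2 n + 2)) L τ := by
  classical
  have := Fintype.ofFinite X
  obtain ⟨h, hh⟩ := hD B (by simpa using hB)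
  choose t ht using hh
  let e : X → ℤ := fun x => (Fintype.equivFin X x : ℕ)
  have he : Function.Injective e := fun x y hxy =>
    (Fintype.equivFin X).injective (Fin.ext (by simpa [e] using hxy))
  let S : X → B → ℤˣ := fun a b => if P.lt a b ∨ P.lt b a then -1 else 1
  let lab : X → ℕ := fun x => if hx : x ∈ B then (B.equivFin ⟨x, hx⟩ : ℕ) else n
  have hlab : ∀ x, lab x < 2 ^ (Nat.log 2 n + 2) := by
    intro x
    have h2 : n < 2 ^ (Nat.log 2 n + 1) := Nat.lt_pow_succ_log_self (by norm_num) n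
    have : lab x ≤ n := by
      simp only [lab]
      split_ifs with hx
      · have := (B.equivFin ⟨x, hx⟩).2; omega
      · exact le_rfl
    rw [pow_succ]; omega
  have hlab1 : ∀ x y, lab x = lab y → x ∈ B → x = y := by
    intro x y hxy hx
    simp only [lab, dif_pos hx] at hxy
    split_ifs at hxy with hy
    · exact congrArg Subtype.val (B.equivFin.injective (Fin.ext hxy))
    · have := (B.equivFin ⟨x, hx⟩).2; omega
  let lev : Fin D → X → ℤ := fun i x =>
    if hx : x ∈ B then 2 * (h i ⟨x, hx⟩ : ℤ) + 1 else 2 * (t (S x) i : ℤ)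
  let r : Fin D ⊕ (Fin 3 × Fin (Nat.log 2 n + 2)) → X → ℤ ×ₗ ℤ := fun i x =>
    match i with
    | Sum.inl i => toLex (lev i x, e x)
    | Sum.inr (c, j) => bitKey c ((lab x).testBit j) (e x)
  have hnA : ∀ x y, x ∉ B → y ∉ B → ¬ P.lt x y := by
    intro x y hx hy hlt
    exact hA hx hy (ne_of_lt hlt) (le_of_lt hlt)
  have hS : ∀ (x x' : X) (b : B), x ∉ B → x' ∉ B →
      (∀ i, h i b < t (S x) i ↔ h i b < t (S x') i) → S x b = S x' b := by
    intro x x' b _ _ hi
    rw [← congrFun (ht (S x)) b, ← congrFun (ht (S x')) b]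
    exact Finset.prod_congr rfl fun i _ => by simp only [sg, hi i]
  have key := realizer_of_keys P r ?_ ?_
  · rwa [show Fintype.card (Fin D ⊕ Fin 3 × Fin (Nat.log 2 n + 2)) = D + 3 * (Nat.log 2 n + 2) by
      simp] at key
  · rintro (i | ⟨c, j⟩) x y hxy
    · exact he (congrArg Prod.snd (toLex.injective hxy))
    · exact he (bitKey_inj _ _ _ _ _ hxy)
  · intro x y x' y' hxy hxy' hr hlt
    have hl : lab x = lab x' ∧ lab y = lab y' := by
      have hj : ∀ j : Fin (Nat.log 2 n + 2), (lab x).testBit j = (lab x').testBit j ∧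
          (lab y).testBit j = (lab y').testBit j := fun j =>
        bitKey_det _ _ _ _ _ _ _ _ (he.ne hxy) (he.ne hxy') (fun c => hr (Sum.inr (c, j)))
      have hbig : ∀ z j, ¬ j < Nat.log 2 n + 2 → (lab z).testBit j = false := fun z j hj =>
        Nat.testBit_lt_two_pow ((hlab z).trans_le (Nat.pow_le_pow_right (by norm_num) (by omega)))
      constructor <;> refine Nat.eq_of_testBit_eq fun j => ?_ <;>
        by_cases hj' : j < Nat.log 2 n + 2
      · exact (hj ⟨j, hj'⟩).1
      · rw [hbig _ _ hj', hbig _ _ hj']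
      · exact (hj ⟨j, hj'⟩).2
      · rw [hbig _ _ hj', hbig _ _ hj']
    by_cases hx : x ∈ B <;> by_cases hy : y ∈ B
    · rw [← hlab1 _ _ hl.1 hx, ← hlab1 _ _ hl.2 hy]; exact hlt
    · obtain rfl := hlab1 _ _ hl.1 hx
      have hy' : y' ∉ B := fun hy' => hy (by rw [← hlab1 _ _ hl.2.symm hy']; exact hy')
      have := hS y y' ⟨x, hx⟩ hy hy' (fun i => by
        have := hr (Sum.inl i)
        simp only [r, lev, dif_pos hx, dif_neg hy, dif_neg hy', Prod.Lex.toLex_lt_toLex] at this
        omega)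
      simp only [S, hlt, or_true, if_true] at this
      split_ifs at this with h1
      · rcases h1 with h1 | h1
        · exact absurd (lt_trans h1 hlt) (hnA _ _ hy' hy)
        · exact h1
      · simp at this
    · obtain rfl := hlab1 _ _ hl.2 hy
      have hx' : x' ∉ B := fun hx' => hx (by rw [← hlab1 _ _ hl.1.symm hx']; exact hx')
      have := hS x x' ⟨y, hy⟩ hx hx' (fun i => by
        have := hr (Sum.inl i)
        simp only [r, lev, dif_pos hy, dif_neg hx, dif_neg hx', Prod.Lex.toLex_lt_toLex] at this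
        omega)
      simp only [S, hlt, true_or, if_true] at this
      split_ifs at this with h1
      · rcases h1 with h1 | h1
        · exact h1
        · exact absurd (lt_trans hlt h1) (hnA _ _ hx hx')
      · simp at this
    · exact absurd hlt (hnA _ _ hx hy)

/-- singletons below the sets containing them -/
def incLE (n : ℕ) (x y : Fin n ⊕ Finset (Fin n)) : Prop :=
  x = y ∨ ∃ b S, x = Sum.inl b ∧ y = Sum.inr S ∧ b ∈ S

/-- the incidence poset of points and subsets -/
@[reducible] def incPoset (n : ℕ) : PartialOrder (Fin n ⊕ Finset (Fin n)) where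
  le := incLE n
  lt x y := incLE n x y ∧ ¬ incLE n y x
  le_refl x := Or.inl rfl
  le_trans x y z := by
    rintro (rfl | ⟨b, S, rfl, rfl, h⟩) (rfl | ⟨b', S', h1, rfl, h'⟩)
    · exact Or.inl rfl
    · exact Or.inr ⟨_, _, h1, rfl, h'⟩
    · exact Or.inr ⟨_, _, rfl, rfl, h⟩
    · cases h1
  le_antisymm x y := by
    rintro (rfl | ⟨b, S, rfl, rfl, h⟩) (h2 | ⟨b', S', h1, h2, h'⟩)
    · rfl
    · rfl
    · exact h2.symm
    · cases h1
  lt_iff_le_not_ge _ _ := Iff.rfl

lemma lower (n d : ℕ) (L : Fin d → LinearOrder (Fin n ⊕ Finset (Fin n)))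
    (τ : (Fin d → Bool) → Bool) (h : IsBoolRealizer (incPoset n) d L τ) : 2 ^ n ≤ (n + 1) ^ d := by
  classical
  let T : Finset (Fin n) → Fin d → Finset (Fin n) := fun S i =>
    Finset.univ.filter fun b => (L i).lt (Sum.inl b) (Sum.inr S)
  let φ : Finset (Fin n) → Fin d → Fin (n + 1) := fun S i =>
    ⟨(T S i).card, Nat.lt_succ_of_le (by simpa using Finset.card_le_univ (T S i))⟩
  have hmem : ∀ b S, (incPoset n).lt (Sum.inl b) (Sum.inr S) ↔ b ∈ S := by
    intro b S
    change incLE n _ _ ∧ ¬ incLE n _ _ ↔ _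
    simp [incLE]
  have hφ : Function.Injective φ := by
    intro S S' hS
    have hT : ∀ i, T S i = T S' i := by
      intro i
      have hc : (T S i).card = (T S' i).card := congrArg Fin.val (congrFun hS i)
      rcases (L i).le_total (Sum.inr S) (Sum.inr S') with hle | hle
      · refine Finset.eq_of_subset_of_card_le (fun b hb => ?_) hc.ge
        simp only [T, Finset.mem_filter, Finset.mem_univ, true_and] at hb ⊢
        exact @lt_of_lt_of_le _ (L i).toPreorder _ _ _ hb hle
      · refine (Finset.eq_of_subset_of_card_le (fun b hb => ?_) hc.le).symm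
        simp only [T, Finset.mem_filter, Finset.mem_univ, true_and] at hb ⊢
        exact @lt_of_lt_of_le _ (L i).toPreorder _ _ _ hb hle
    ext b
    rw [← hmem, ← hmem, h _ _ (by simp), h _ _ (by simp)]
    have : (fun i => @decide ((L i).lt (Sum.inl b) (Sum.inr S)) ((L i).toDecidableLT _ _)) =
        (fun i => @decide ((L i).lt (Sum.inl b) (Sum.inr S')) ((L i).toDecidableLT _ _)) := by
      funext i
      have := Finset.ext_iff.1 (hT i) b
      simp only [T, Finset.mem_filter, Finset.mem_univ, true_and] at this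
      exact decide_eq_decide.2 this
    rw [this]
  simpa using Fintype.card_le_of_injective φ hφ

theorem result : ∃ C : ℝ, ∀ n : ℕ, 2 ≤ n → ∃ f : ℕ, IsGreatest (dims n) f ∧
    (n : ℝ) / Real.logb 2 (n + 1) ≤ f ∧
    (f : ℝ) ≤ n / Real.logb 2 n + C * n / (Real.logb 2 n) ^ 2 := by
  classical
  refine ⟨100000, fun n hn => ?_⟩
  obtain ⟨D, hD, hDle⟩ := cover_bound n hn
  have hub : ∀ m ∈ dims n, m ≤ D + 3 * (Nat.log 2 n + 2) := by
    rintro m ⟨X, _, P, B, hB, hA, rfl⟩
    exact Nat.sInf_le ⟨by omega, upper P B n D hB hA hD⟩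
  let B : Finset (Fin n ⊕ Finset (Fin n)) := Finset.univ.map ⟨Sum.inl, Sum.inl_injective⟩
  have hB : B.card = n := by simp [B]
  have hA : IsAntichain (incPoset n).le ((B : Set _)ᶜ) := by
    rintro x hx y - hxy (h | ⟨b, S, rfl, -, -⟩)
    · exact hxy h
    · exact hx (by simp [B])
  have hmem : bdim (incPoset n) ∈ dims n := ⟨_, inferInstance, incPoset n, B, hB, hA, rfl⟩
  have hbdd : BddAbove (dims n) := ⟨_, hub⟩
  have hsup : sSup (dims n) ∈ dims n := Nat.sSup_mem ⟨_, hmem⟩ hbdd
  refine ⟨sSup (dims n), ⟨hsup, fun m hm => le_csSup hbdd hm⟩, ?_, ?_⟩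
  · have h1 : bdim (incPoset n) ≤ sSup (dims n) := le_csSup hbdd hmem
    obtain ⟨-, L, τ, hL⟩ : bdim (incPoset n) ∈ {d : ℕ | 1 ≤ d ∧
        ∃ (L : Fin d → LinearOrder (Fin n ⊕ Finset (Fin n))) (τ : (Fin d → Bool) → Bool),
          IsBoolRealizer (incPoset n) d L τ} :=
      Nat.sInf_mem ⟨D + 3 * (Nat.log 2 n + 2), by omega, upper _ B n D hB hA hD⟩
    have h2 := lower n _ L τ hL
    have h3 : (2 : ℝ) ^ n ≤ ((n : ℝ) + 1) ^ sSup (dims n) := by
      have : 2 ^ n ≤ (n + 1) ^ sSup (dims n) := h2.trans (Nat.pow_le_pow_right (by omega) h1)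
      exact_mod_cast this
    have hn' : (2 : ℝ) ≤ n := by exact_mod_cast hn
    have h4 : 0 < Real.logb 2 ((n : ℝ) + 1) := Real.logb_pos (by norm_num) (by linarith)
    rw [div_le_iff₀ h4]
    have h5 := Real.logb_le_logb_of_le (b := 2) (by norm_num) (by positivity) h3
    simpa [Real.logb_pow] using h5
  · refine le_trans ?_ hDle
    exact_mod_cast hub _ hsup

end Pool.Agent.Results.MP_e52733_co.AAsymptotic
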